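import Mathlib

open Equiv Matrix

namespace Pool.Agent.H.MP_119ce6_al

variable {n : ℕ}

abbrev Pt (n : ℕ) := Fin n → ZMod 2
abbrev Al (n : ℕ) := FreeAlgebra (ZMod 2) (Fin n)

lemma two (x : ZMod 2) : x + x = 0 := CharTwo.add_self_eq_zero x

lemma even_el {k j : Fin n} (hjk : j ≠ k) (f : Pt n → ZMod 2)
    (h1 : ∀ v c, f (v + Pi.single k c) = f v) (h2 : ∀ v, f (v + Pi.single j 1) = f v)
    (e : Perm (Pt n)) (he : ∀ v, e v = v + Pi.single k (f v)) : Perm.sign e = 1 := by
  have hg : Function.Involutive fun v : Pt n => v + Pi.single k (f v * v j) := by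
    intro v
    simp only [h1, Pi.add_apply, Pi.single_eq_of_ne hjk, add_zero, add_assoc, ← Pi.single_add, two,
      Pi.single_zero]
  have : e = hg.toPerm _ * (Equiv.addRight (Pi.single j 1 : Pt n) * hg.toPerm _ *
      Equiv.addRight (Pi.single j 1 : Pt n)) := by
    ext v : 1
    have h3 : v + Pi.single j 1 + Pi.single k (f v * (v j + 1)) + Pi.single j 1 =
        v + Pi.single k (f v * (v j + 1)) := by
      rw [add_right_comm, add_assoc v, ← Pi.single_add, two, Pi.single_zero, add_zero]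
    simp only [he, Perm.mul_apply, coe_addRight, Function.Involutive.coe_toPerm, h2, Pi.add_apply,
      Pi.single_eq_same, h3, h1, Pi.single_eq_of_ne hjk, add_zero]
    rw [add_assoc, ← Pi.single_add, ← mul_add, add_right_comm, two, zero_add, mul_one]
  rw [this]
  simp only [map_mul]
  rcases Int.units_eq_one_or (Perm.sign (hg.toPerm _)) with h | h <;>
    rcases Int.units_eq_one_or (Perm.sign (Equiv.addRight (Pi.single j 1 : Pt n))) with h' | h' <;>
    simp [h, h']

lemma exists_other (hn : 4 ≤ n) (a b c : Fin n) : ∃ j, j ≠ a ∧ j ≠ b ∧ j ≠ c := by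
  by_contra h
  push Not at h
  have h1 : (Finset.univ : Finset (Fin n)) ⊆ {a, b, c} := fun j _ => by
    have := h j
    simp only [Finset.mem_insert, Finset.mem_singleton]
    tauto
  have h2 := (Finset.card_le_card h1).trans Finset.card_le_three
  simp at h2
  omega

lemma even_tr (hn : 4 ≤ n) (b : Pt n) : Perm.sign (Equiv.addRight b) = 1 := by
  have : ∀ s : Finset (Fin n),
      Perm.sign (Equiv.addRight (∑ k ∈ s, Pi.single k (b k) : Pt n)) = 1 := by
    intro s
    induction s using Finset.induction_on with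
    | empty => simp
    | insert k s hk ih =>
      obtain ⟨j, hj, -⟩ := exists_other hn k k k
      rw [Finset.sum_insert hk, Equiv.addRight_add, map_mul, ih, even_el hj (fun _ => b k)
        (fun _ _ => rfl) (fun _ => rfl) _ fun _ => rfl, mul_one]
  simpa [Finset.univ_sum_single] using this Finset.univ

lemma even_lin (hn : 4 ≤ n) (M : Matrix (Fin n) (Fin n) (ZMod 2)) (hM : M.det ≠ 0) :
    ∃ e : Perm (Pt n), (∀ v, e v = M *ᵥ v) ∧ Perm.sign e = 1 := by
  refine diagonal_transvection_induction_of_det_ne_zero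
    (fun M => ∃ e : Perm (Pt n), (∀ v, e v = M *ᵥ v) ∧ Perm.sign e = 1) M hM ?_ ?_ ?_
  · intro D hD
    have : D = fun _ => 1 := funext fun i => by
      rw [det_diagonal, Finset.prod_ne_zero_iff] at hD
      have := hD i (Finset.mem_univ _)
      revert this
      generalize D i = x
      decide +revert
    exact ⟨1, fun v => by simp [this], map_one _⟩
  · rintro ⟨i, l, hil, c⟩
    obtain ⟨j, h1, h2, -⟩ := exists_other hn i l l
    have hg : Function.Involutive fun v : Pt n => v + Pi.single i (c * v l) := by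
      intro v
      simp only [Pi.add_apply, Pi.single_eq_of_ne hil.symm, add_zero, add_assoc, ← Pi.single_add,
        two, Pi.single_zero]
    refine ⟨hg.toPerm _, fun v => ?_, even_el h1 (fun v => c * v l) (fun v d => ?_) (fun v => ?_) _
      fun _ => rfl⟩
    · simp [TransvectionStruct.toMatrix, transvection, add_mulVec, single_mulVec, Pi.single]
    · simp [Pi.single_eq_of_ne hil.symm]
    · simp [Pi.single_eq_of_ne h2.symm]
  · rintro A B - - ⟨e, h1, h2⟩ ⟨e', h3, h4⟩
    exact ⟨e * e', fun v => by simp [h1, h3], by simp [h2, h4]⟩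

noncomputable def ff (φ : Al n ≃ₐ[ZMod 2] Al n) (v : Pt n) : Pt n :=
  fun i => FreeAlgebra.lift (ZMod 2) v (φ (FreeAlgebra.ι _ i))

lemma ff_mul (φ ψ : Al n ≃ₐ[ZMod 2] Al n) (v : Pt n) : ff (φ * ψ) v = ff ψ (ff φ v) := by
  have : FreeAlgebra.lift (ZMod 2) (ff φ v) =
      (FreeAlgebra.lift (ZMod 2) v).comp (φ : Al n →ₐ[ZMod 2] Al n) := by
    ext i
    simp [ff]
  funext i
  simp only [ff, this]
  rfl

lemma ff_one (v : Pt n) : ff 1 v = v := funext fun i => by simp [ff]

noncomputable def pe (φ : Al n ≃ₐ[ZMod 2] Al n) : Perm (Pt n) :=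
  ⟨ff φ, ff φ⁻¹, fun v => by rw [← ff_mul, mul_inv_cancel, ff_one],
    fun v => by rw [← ff_mul, inv_mul_cancel, ff_one]⟩

noncomputable def Ev (n : ℕ) : Subgroup (Al n ≃ₐ[ZMod 2] Al n) where
  carrier := {φ | Perm.sign (pe φ) = 1}
  one_mem' := by
    have : pe (1 : Al n ≃ₐ[ZMod 2] Al n) = 1 := Equiv.ext ff_one
    simp [this]
  mul_mem' := fun {φ ψ} h1 h2 => by
    have : pe (φ * ψ) = pe ψ * pe φ := Equiv.ext (ff_mul φ ψ)
    simp only [Set.mem_ofPred_eq] at h1 h2 ⊢
    rw [this, map_mul, h1, h2, mul_one]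
  inv_mem' := fun {φ} h => by
    have : pe φ⁻¹ = (pe φ)⁻¹ := rfl
    simp only [Set.mem_ofPred_eq] at h ⊢
    rw [this, map_inv, h, inv_one]

lemma aff_mem (hn : 4 ≤ n) {φ : Al n ≃ₐ[ZMod 2] Al n} (a : GL (Fin n) (ZMod 2)) (b : Pt n)
    (h : ∀ i, φ (FreeAlgebra.ι _ i) = ∑ j, a i j • FreeAlgebra.ι _ j + algebraMap _ _ (b i)) :
    φ ∈ Ev n := by
  obtain ⟨e, h1, h2⟩ := even_lin hn a a.det_ne_zero
  have : pe φ = Equiv.addRight b * e := by
    ext v i
    simp [pe, ff, h, h1, mulVec, dotProduct]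
  show Perm.sign (pe φ) = 1
  rw [this, map_mul, h2, even_tr hn, mul_one]

lemma sig_mem (hn : 4 ≤ n) {φ : Al n ≃ₐ[ZMod 2] Al n} {a b k : Fin n} (ha : a ≠ k) (hb : b ≠ k)
    (h1 : φ (FreeAlgebra.ι _ k) = FreeAlgebra.ι _ k + FreeAlgebra.ι _ a * FreeAlgebra.ι _ b)
    (h2 : ∀ i, i ≠ k → φ (FreeAlgebra.ι _ i) = FreeAlgebra.ι _ i) : φ ∈ Ev n := by
  obtain ⟨j, h3, h4, h5⟩ := exists_other hn k a b
  refine even_el h3 (fun v => v a * v b) (fun v c => ?_) (fun v => ?_) _ fun v => funext fun i => ?_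
  · simp [Pi.single_eq_of_ne ha, Pi.single_eq_of_ne hb]
  · simp [Pi.single_eq_of_ne h4.symm, Pi.single_eq_of_ne h5.symm]
  · by_cases hi : i = k
    · simp [pe, ff, hi, h1]
    · simp [pe, ff, hi, h2 i hi]

lemma exists_odd (k : Fin n) : ∃ φ, φ ∉ Ev n := by
  let w : Al n := (List.ofFn fun i => if i = k then 1 else FreeAlgebra.ι _ i).prod
  let g : Al n →ₐ[ZMod 2] Al n :=
    FreeAlgebra.lift _ fun i => if i = k then FreeAlgebra.ι _ k + w else FreeAlgebra.ι _ i
  have h1 : g w = w := by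
    simp only [w, map_list_prod, List.map_ofFn]
    congr 2
    funext i
    by_cases hi : i = k <;> simp [g, hi]
  have h2 : g.comp g = AlgHom.id _ _ := by
    ext i
    by_cases hi : i = k
    · have h3 : g (FreeAlgebra.ι _ k) = FreeAlgebra.ι _ k + w := by simp [g]
      have h4 : w + w = 0 := by
        rw [← two_smul (ZMod 2), show (2 : ZMod 2) = 0 from rfl, zero_smul]
      simp [hi, h3, h1, add_assoc, h4]
    · simp [g, hi]
  have h3 : ∀ v : Pt n, FreeAlgebra.lift (ZMod 2) v w = ∏ i, if i = k then 1 else v i := by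
    intro v
    simp only [w, map_list_prod, List.map_ofFn, List.prod_ofFn]
    refine Finset.prod_congr rfl fun i _ => ?_
    by_cases hi : i = k <;> simp [hi]
  have h4 : ∀ v, pe (AlgEquiv.ofAlgHom g g h2 h2) v =
      v + Pi.single k (∏ i, if i = k then 1 else v i) := by
    intro v
    funext i
    by_cases hi : i = k <;> simp [pe, ff, g, hi, h3]
  have h5 : pe (AlgEquiv.ofAlgHom g g h2 h2) = swap 1 (1 + Pi.single k 1) := by
    ext v : 1
    rw [h4]
    by_cases h6 : v = 1
    · simp [h6]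
    by_cases h7 : v = 1 + Pi.single k 1
    · have : ∏ i, (if i = k then 1 else v i) = 1 :=
        Finset.prod_eq_one fun i _ => by by_cases hi : i = k <;> simp [h7, hi]
      rw [this, h7, swap_apply_right, add_assoc, ← Pi.single_add, two, Pi.single_zero, add_zero]
    rw [swap_apply_of_ne_of_ne h6 h7]
    obtain ⟨i, hi, h8⟩ : ∃ i, i ≠ k ∧ v i = 0 := by
      by_contra h8
      push Not at h8
      have h9 : ∀ x : ZMod 2, x ≠ 0 → x = 1 := by decide
      by_cases h10 : v k = 0
      · refine h7 (funext fun i => ?_)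
        by_cases hi : i = k
        · simp [hi, h10, two]
        · simp [hi, h9 _ (h8 i hi)]
      · refine h6 (funext fun i => ?_)
        by_cases hi : i = k
        · simp [hi, h9 _ h10]
        · simp [h9 _ (h8 i hi)]
    rw [Finset.prod_eq_zero (Finset.mem_univ i) (by simp [hi, h8])]
    simp
  refine ⟨AlgEquiv.ofAlgHom g g h2 h2, fun h => ?_⟩
  have h6 : Perm.sign (pe (AlgEquiv.ofAlgHom g g h2 h2)) = 1 := h
  rw [h5, Perm.sign_swap fun h7 => by simpa using congrFun h7 k] at h6
  exact absurd h6 (by decide)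

end Pool.Agent.H.MP_119ce6_al
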